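import Pool.Agent.V5helper32.CM.Stm

/-!
# Project CM, job REP: trace of an automorphism on a sum of blocks of the group algebra
-/

namespace Pool.Agent.V5helper68.CM.REP

open Pool.Agent.V5helper32.CM
open scoped ComplexOrder

section schur

variable {W : Type} [Group W]
variable {E F : Type} [AddCommGroup E] [Module ℂ E] [AddCommGroup F] [Module ℂ F]

theorem schur_alt (ρ : W → E →ₗ[ℂ] E) (σ : W → F →ₗ[ℂ] F)
    (hE : ∀ U : Submodule ℂ E, (∀ w, ∀ x ∈ U, ρ w x ∈ U) → U = ⊥ ∨ U = ⊤)
    (hF : ∀ U : Submodule ℂ F, (∀ w, ∀ x ∈ U, σ w x ∈ U) → U = ⊥ ∨ U = ⊤)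
    (f : E →ₗ[ℂ] F) (hf : ∀ w x, f (ρ w x) = σ w (f x)) :
    f = 0 ∨ Function.Bijective f := by
  by_cases h0 : f = 0
  · exact Or.inl h0
  refine Or.inr ⟨?_, ?_⟩
  · rcases hE (LinearMap.ker f) (by
      intro w x hx
      rw [LinearMap.mem_ker] at hx ⊢
      rw [hf, hx, map_zero]) with h | h
    · exact LinearMap.ker_eq_bot.1 h
    · exact absurd (LinearMap.ker_eq_top.1 h) h0
  · rcases hF (LinearMap.range f) (by
      rintro w _ ⟨x, rfl⟩
      exact ⟨ρ w x, hf w x⟩) with h | h
    · exact absurd (LinearMap.range_eq_bot.1 h) h0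
    · exact LinearMap.range_eq_top.1 h

theorem schur_self [FiniteDimensional ℂ E] [Nontrivial E] (ρ : W → E →ₗ[ℂ] E)
    (hE : ∀ U : Submodule ℂ E, (∀ w, ∀ x ∈ U, ρ w x ∈ U) → U = ⊥ ∨ U = ⊤)
    (f : E →ₗ[ℂ] E) (hf : ∀ w x, f (ρ w x) = ρ w (f x)) :
    ∃ c : ℂ, f = c • LinearMap.id := by
  obtain ⟨c, hc⟩ := Module.End.exists_eigenvalue f
  obtain ⟨v, hv⟩ := hc.exists_hasEigenvector
  refine ⟨c, ?_⟩
  rcases schur_alt ρ ρ hE hE (f - c • LinearMap.id) (by
    intro w x
    simp [hf]) with h | h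
  · exact sub_eq_zero.1 h
  · exfalso
    apply hv.2
    apply h.1
    rw [map_zero]
    have := hv.apply_eq_smul
    simp [this]

variable [Fintype W]

/-- The averaged map. -/
noncomputable def av (ρ : Representation ℂ W E) (σ : Representation ℂ W F) (B : F →ₗ[ℂ] E) :
    F →ₗ[ℂ] E := ∑ u, (ρ u ∘ₗ B) ∘ₗ σ u⁻¹

theorem av_int (ρ : Representation ℂ W E) (σ : Representation ℂ W F) (B : F →ₗ[ℂ] E) (w : W)
    (x : F) : av ρ σ B (σ w x) = ρ w (av ρ σ B x) := by
  unfold av
  rw [LinearMap.sum_apply, LinearMap.sum_apply, map_sum]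
  refine (Fintype.sum_equiv (Equiv.mulLeft w) _ _ ?_).symm
  intro u
  simp only [LinearMap.comp_apply, Equiv.coe_mulLeft, mul_inv_rev, map_mul, Module.End.mul_apply]
  rw [← Module.End.mul_apply (σ w⁻¹) (σ w) x, ← map_mul, inv_mul_cancel, map_one,
    Module.End.one_apply]

theorem av_self [FiniteDimensional ℂ E] [Nontrivial E] (ρ : Representation ℂ W E)
    (hE : ∀ U : Submodule ℂ E, (∀ w, ∀ x ∈ U, ρ w x ∈ U) → U = ⊥ ∨ U = ⊤) (B : E →ₗ[ℂ] E) :
    av ρ ρ B = ((Fintype.card W : ℂ) / (Module.finrank ℂ E : ℂ) * LinearMap.trace ℂ E B) •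
      LinearMap.id := by
  obtain ⟨c, hc⟩ := schur_self (fun w => ρ w) hE (av ρ ρ B) (fun w x => av_int ρ ρ B w x)
  have hd : (Module.finrank ℂ E : ℂ) ≠ 0 := by
    exact_mod_cast (Module.finrank_pos (R := ℂ) (M := E)).ne'
  have h1 : LinearMap.trace ℂ E (av ρ ρ B) = Fintype.card W * LinearMap.trace ℂ E B := by
    unfold av
    rw [map_sum]
    have : ∀ u : W, LinearMap.trace ℂ E ((ρ u ∘ₗ B) ∘ₗ ρ u⁻¹) = LinearMap.trace ℂ E B := by
      intro u
      have e1 : (ρ u ∘ₗ B) ∘ₗ ρ u⁻¹ = (ρ u * B) * ρ u⁻¹ := rfl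
      rw [e1, LinearMap.trace_mul_comm, ← mul_assoc, ← map_mul, inv_mul_cancel, map_one, one_mul]
    rw [Finset.sum_congr rfl fun u _ => this u, Finset.sum_const, Finset.card_univ, nsmul_eq_mul]
  rw [hc] at h1 ⊢
  rw [map_smul, LinearMap.trace_id, smul_eq_mul] at h1
  congr 1
  field_simp
  exact h1

end schur

section fourier

variable {W : Type} [Group W] [Fintype W] (S : IrrSys W)

/-- The element of the group algebra which acts by a multiple of `B` on `E_i` and by zero on the
others. -/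
noncomputable def el (i : S.I) (B : S.E i →ₗ[ℂ] S.E i) : MonoidAlgebra ℂ W :=
  ∑ w, MonoidAlgebra.single w (LinearMap.trace ℂ _ (S.ρ i w⁻¹ * B))

theorem tr_basis {E : Type} [AddCommGroup E] [Module ℂ E] [FiniteDimensional ℂ E]
    (f : E →ₗ[ℂ] E) : LinearMap.trace ℂ E f =
      ∑ k, (Module.finBasis ℂ E).coord k (f (Module.finBasis ℂ E k)) := by
  rw [LinearMap.trace_eq_matrix_trace ℂ (Module.finBasis ℂ E) f, Matrix.trace]
  refine Finset.sum_congr rfl fun k _ => ?_
  rw [Matrix.diag_apply, LinearMap.toMatrix_apply, Module.Basis.coord_apply]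

theorem el_apply (i j : S.I) (B : S.E i →ₗ[ℂ] S.E i) (y : S.E j) :
    (S.ρ j).asAlgebraHom (el S i B) y =
      ∑ k, av (S.ρ j) (S.ρ i) (LinearMap.smulRight
        ((Module.finBasis ℂ (S.E i)).coord k) y) (B (Module.finBasis ℂ (S.E i) k)) := by
  classical
  unfold el av
  rw [map_sum, LinearMap.sum_apply]
  simp only [LinearMap.sum_apply]
  rw [Finset.sum_comm]
  refine Finset.sum_congr rfl fun w _ => ?_
  rw [Representation.asAlgebraHom_single, LinearMap.smul_apply, tr_basis, Finset.sum_smul]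
  refine Finset.sum_congr rfl fun k _ => ?_
  rw [LinearMap.comp_apply, LinearMap.comp_apply, LinearMap.smulRight_apply, map_smul,
    Module.End.mul_apply]

theorem fourier_ne (i j : S.I) (hij : i ≠ j) (B : S.E i →ₗ[ℂ] S.E i) :
    (S.ρ j).asAlgebraHom (el S i B) = 0 := by
  ext y
  rw [el_apply, LinearMap.zero_apply]
  refine Finset.sum_eq_zero fun k _ => ?_
  rcases schur_alt (fun w => S.ρ i w) (fun w => S.ρ j w) (S.irr i) (S.irr j)
    (av (S.ρ j) (S.ρ i) (LinearMap.smulRight ((Module.finBasis ℂ (S.E i)).coord k) y))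
    (fun w x => av_int _ _ _ w x) with h | h
  · rw [h, LinearMap.zero_apply]
  · exact absurd (S.inj i j (LinearEquiv.ofBijective _ h)
      (fun w x => av_int _ _ _ w x)) hij

theorem fourier_eq (i : S.I) (B : S.E i →ₗ[ℂ] S.E i) :
    (S.ρ i).asAlgebraHom (el S i B) =
      ((Fintype.card W : ℂ) / (Module.finrank ℂ (S.E i) : ℂ)) • B := by
  haveI := S.nt i
  ext y
  rw [el_apply, LinearMap.smul_apply]
  have h1 : ∀ k, av (S.ρ i) (S.ρ i) (LinearMap.smulRight
        ((Module.finBasis ℂ (S.E i)).coord k) y) (B (Module.finBasis ℂ (S.E i) k)) =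
      ((Fintype.card W : ℂ) / (Module.finrank ℂ (S.E i) : ℂ)) •
        B ((Module.finBasis ℂ (S.E i)).coord k y • (Module.finBasis ℂ (S.E i) k)) := by
    intro k
    have h2 : LinearMap.trace ℂ (S.E i) (LinearMap.smulRight
        ((Module.finBasis ℂ (S.E i)).coord k) y) = (Module.finBasis ℂ (S.E i)).coord k y := by
      rw [tr_basis, Finset.sum_eq_single k]
      · simp
      · intro l _ hl
        simp [Finsupp.single_apply, hl]
      · intro h
        exact absurd (Finset.mem_univ k) h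
    rw [av_self (S.ρ i) (S.irr i), h2, LinearMap.smul_apply, LinearMap.id_apply, mul_smul, map_smul]
  rw [Finset.sum_congr rfl fun k _ => h1 k, ← Finset.smul_sum, ← map_sum]
  congr 2
  exact (Module.finBasis ℂ (S.E i)).sum_repr y

/-- The block idempotent. -/
noncomputable def eps (i : S.I) : MonoidAlgebra ℂ W :=
  ((Module.finrank ℂ (S.E i) : ℂ) / (Fintype.card W : ℂ)) • el S i 1

theorem eps_ne (i j : S.I) (hij : i ≠ j) : (S.ρ j).asAlgebraHom (eps S i) = 0 := by
  rw [eps, map_smul, fourier_ne S i j hij, smul_zero]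

theorem eps_eq (i : S.I) : (S.ρ i).asAlgebraHom (eps S i) = 1 := by
  haveI := S.nt i
  have hd : (Module.finrank ℂ (S.E i) : ℂ) ≠ 0 := by
    exact_mod_cast (Module.finrank_pos (R := ℂ) (M := S.E i)).ne'
  have hw : (Fintype.card W : ℂ) ≠ 0 := by
    exact_mod_cast (Fintype.card_pos (α := W)).ne'
  rw [eps, map_smul, fourier_eq S i 1, smul_smul]
  have : (Module.finrank ℂ (S.E i) : ℂ) / (Fintype.card W : ℂ) *
      ((Fintype.card W : ℂ) / (Module.finrank ℂ (S.E i) : ℂ)) = 1 := by
    field_simp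
  rw [this, one_smul]

theorem eps_coeff (i : S.I) (w : W) : (eps S i).coeff w =
    ((Module.finrank ℂ (S.E i) : ℂ) / (Fintype.card W : ℂ)) *
      LinearMap.trace ℂ _ (S.ρ i w⁻¹) := by
  classical
  rw [eps, MonoidAlgebra.coeff_smul_apply, smul_eq_mul, el, MonoidAlgebra.coeff_sum,
    Finsupp.finsetSum_apply]
  congr 1
  rw [Finset.sum_eq_single w]
  · rw [MonoidAlgebra.coeff_single, Finsupp.single_eq_same, mul_one]
  · intro u _ hu
    rw [MonoidAlgebra.coeff_single, Finsupp.single_apply, if_neg hu]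
  · intro h
    exact absurd (Finset.mem_univ w) h

instance : FiniteDimensional ℂ (MonoidAlgebra ℂ W) :=
  Module.Finite.equiv (MonoidAlgebra.coeffLinearEquiv (R := ℂ) (S := ℂ) (M := W)).symm

theorem simple_part (V : Submodule (MonoidAlgebra ℂ W) (MonoidAlgebra ℂ W))
    (hV : IsSimpleModule (MonoidAlgebra ℂ W) V) (a : MonoidAlgebra ℂ W)
    (h : ∀ i, (S.ρ i).asAlgebraHom a = 0) (y : V) : a • y = 0 := by
  classical
  let φ : MonoidAlgebra ℂ W →ₐ[ℂ] (V →ₗ[ℂ] V) := Algebra.lsmul ℂ ℂ V
  let ρ' : Representation ℂ W V := (φ : MonoidAlgebra ℂ W →* (V →ₗ[ℂ] V)).comp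
    (MonoidAlgebra.of ℂ W)
  have hφ : ρ'.asAlgebraHom = φ := by
    apply MonoidAlgebra.algHom_ext
    · intro w
      rw [Representation.asAlgebraHom_single, one_smul]
      rfl
    · exact Subsingleton.elim _ _
  haveI : FiniteDimensional ℂ V :=
    FiniteDimensional.of_injective (V.subtype.restrictScalars ℂ) V.injective_subtype
  have hnt : Nontrivial V := IsSimpleModule.nontrivial (MonoidAlgebra ℂ W) V
  have hirr : ∀ U : Submodule ℂ V, (∀ w, ∀ x ∈ U, ρ' w x ∈ U) → U = ⊥ ∨ U = ⊤ := by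
    intro U hU
    have key : ∀ (b : MonoidAlgebra ℂ W) (x : V), x ∈ U → b • x ∈ U := by
      intro b x hx
      have e : b • x = ρ'.asAlgebraHom b x := by rw [hφ]; rfl
      rw [e]
      have e2 : b = ∑ w, MonoidAlgebra.single w (b.coeff w) := by
        ext v
        rw [MonoidAlgebra.coeff_sum, Finsupp.finsetSum_apply, Finset.sum_eq_single v]
        · rw [MonoidAlgebra.coeff_single, Finsupp.single_eq_same]
        · intro u _ hu
          rw [MonoidAlgebra.coeff_single, Finsupp.single_apply, if_neg hu]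
        · intro h
          exact absurd (Finset.mem_univ v) h
      rw [e2, map_sum, LinearMap.sum_apply]
      refine Submodule.sum_mem _ fun w _ => ?_
      rw [Representation.asAlgebraHom_single, LinearMap.smul_apply]
      exact U.smul_mem _ (hU w x hx)
    let U' : Submodule (MonoidAlgebra ℂ W) V :=
      { carrier := U
        add_mem' := fun ha hb => U.add_mem ha hb
        zero_mem' := U.zero_mem
        smul_mem' := fun b x hx => key b x hx }
    rcases eq_bot_or_eq_top U' with h | h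
    · left
      rw [eq_bot_iff]
      intro x hx
      have : x ∈ U' := hx
      rw [h] at this
      exact this
    · right
      rw [eq_top_iff]
      intro x _
      have : x ∈ U' := by rw [h]; trivial
      exact this
  obtain ⟨i, e, he⟩ := S.surj V ρ' hnt hirr
  have key : ∀ (b : MonoidAlgebra ℂ W) (x : S.E i),
      e ((S.ρ i).asAlgebraHom b x) = ρ'.asAlgebraHom b (e x) := by
    intro b x
    have e2 : b = ∑ w, MonoidAlgebra.single w (b.coeff w) := by
      ext v
      rw [MonoidAlgebra.coeff_sum, Finsupp.finsetSum_apply, Finset.sum_eq_single v]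
      · rw [MonoidAlgebra.coeff_single, Finsupp.single_eq_same]
      · intro u _ hu
        rw [MonoidAlgebra.coeff_single, Finsupp.single_apply, if_neg hu]
      · intro h
        exact absurd (Finset.mem_univ v) h
    rw [e2, map_sum, map_sum, LinearMap.sum_apply, LinearMap.sum_apply, map_sum]
    refine Finset.sum_congr rfl fun w _ => ?_
    rw [Representation.asAlgebraHom_single, Representation.asAlgebraHom_single,
      LinearMap.smul_apply, LinearMap.smul_apply, map_smul, he]
  have h1 := key a (e.symm y)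
  rw [h i, LinearMap.zero_apply, map_zero, LinearEquiv.apply_symm_apply, hφ] at h1
  exact h1.symm

theorem inj_of_all (a : MonoidAlgebra ℂ W) (h : ∀ i, (S.ρ i).asAlgebraHom a = 0) : a = 0 := by
  haveI : NeZero (Nat.card W : ℂ) := ⟨by exact_mod_cast Nat.card_pos.ne'⟩
  let N : Submodule (MonoidAlgebra ℂ W) (MonoidAlgebra ℂ W) :=
    { carrier := {x | ∀ b, a * (b * x) = 0}
      add_mem' := by
        intro x y hx hy b
        rw [mul_add, mul_add, hx b, hy b, add_zero]
      zero_mem' := by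
        intro b
        rw [mul_zero, mul_zero]
      smul_mem' := by
        intro c x hx b
        rw [smul_eq_mul, ← mul_assoc b c x]
        exact hx (b * c) }
  have hN : N = ⊤ := by
    rw [eq_top_iff, ← IsSemisimpleModule.sSup_simples_eq_top (MonoidAlgebra ℂ W)
      (MonoidAlgebra ℂ W)]
    apply sSup_le
    intro V hV x hx b
    have h1 := simple_part S V hV a h ⟨b * x, V.smul_mem b hx⟩
    exact congrArg Subtype.val h1
  have h1 : (1 : MonoidAlgebra ℂ W) ∈ N := by rw [hN]; trivial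
  have h2 := h1 1
  rwa [mul_one, mul_one] at h2

theorem conj_trace {E : Type} [AddCommGroup E] [Module ℂ E] [FiniteDimensional ℂ E]
    (R R' : E →ₗ[ℂ] E) (m : ℕ) (hm : 0 < m) (h : R ^ m = 1) (h' : R * R' = 1) :
    LinearMap.trace ℂ E R' = starRingEnd ℂ (LinearMap.trace ℂ E R) := by
  classical
  set b := Module.finBasis ℂ E
  rw [LinearMap.trace_eq_matrix_trace ℂ b, LinearMap.trace_eq_matrix_trace ℂ b]
  set M := LinearMap.toMatrix b b R with hM
  set M' := LinearMap.toMatrix b b R' with hM'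
  have h1 : M ^ m = 1 := by
    rw [hM, LinearMap.toMatrix_pow, h, LinearMap.toMatrix_one]
  have h2 : M * M' = 1 := by
    rw [hM, hM', ← LinearMap.toMatrix_mul, h', LinearMap.toMatrix_one]
  obtain ⟨k, rfl⟩ : ∃ k, m = k + 1 := ⟨m - 1, by omega⟩
  let Q : Matrix _ _ ℂ := ∑ j ∈ Finset.range (k + 1), (M ^ j).conjTranspose * M ^ j
  have hQ : Q.PosDef := by
    have e : Q = ∑ j ∈ Finset.range k, (M ^ (j + 1)).conjTranspose * M ^ (j + 1) + 1 := by
      change ∑ j ∈ Finset.range (k + 1), (M ^ j).conjTranspose * M ^ j = _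
      rw [Finset.sum_range_succ', pow_zero, Matrix.conjTranspose_one, one_mul]
    rw [e]
    apply Matrix.PosDef.posSemidef_add
    · exact Matrix.posSemidef_sum _ fun j _ => Matrix.posSemidef_conjTranspose_mul_self _
    · exact Matrix.PosDef.one
  have hinv : M.conjTranspose * Q * M = Q := by
    change M.conjTranspose * (∑ j ∈ Finset.range (k + 1), (M ^ j).conjTranspose * M ^ j) * M =
      ∑ j ∈ Finset.range (k + 1), (M ^ j).conjTranspose * M ^ j
    rw [Finset.mul_sum, Finset.sum_mul]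
    have e : ∀ j, M.conjTranspose * ((M ^ j).conjTranspose * M ^ j) * M =
        (M ^ (j + 1)).conjTranspose * M ^ (j + 1) := by
      intro j
      rw [pow_succ, Matrix.conjTranspose_mul]
      simp only [mul_assoc]
    rw [Finset.sum_congr rfl fun j _ => e j, Finset.sum_range_succ, Finset.sum_range_succ' (fun j => (M ^ j).conjTranspose * M ^ j), h1, pow_zero]
  have h3 : M.conjTranspose * Q = Q * M' := by
    calc M.conjTranspose * Q = M.conjTranspose * Q * (M * M') := by rw [h2, mul_one]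
      _ = (M.conjTranspose * Q * M) * M' := by simp only [mul_assoc]
      _ = Q * M' := by rw [hinv]
  have hu : IsUnit Q.det := (Matrix.isUnit_iff_isUnit_det Q).1 hQ.isUnit
  have h4 : M.conjTranspose = Q * M' * Q⁻¹ := by
    rw [← h3, mul_assoc, Matrix.mul_nonsing_inv _ hu, mul_one]
  have h5 : M.conjTranspose.trace = M'.trace := by
    rw [h4, Matrix.trace_mul_comm, ← mul_assoc, Matrix.nonsing_inv_mul _ hu, one_mul]
  rw [← h5, Matrix.trace_conjTranspose]
  rfl

theorem trace_G (θ : W ≃* W) (ε : MonoidAlgebra ℂ W) :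
    LinearMap.trace ℂ (MonoidAlgebra ℂ W)
      ((MonoidAlgebra.mapDomainLinearMap ℂ ℂ θ) ∘ₗ LinearMap.mulLeft ℂ ε) =
      ∑ u, ε.coeff (θ.symm u * u⁻¹) := by
  classical
  let b : Module.Basis W ℂ (MonoidAlgebra ℂ W) :=
    Module.Basis.ofRepr (MonoidAlgebra.coeffLinearEquiv ℂ)
  rw [LinearMap.trace_eq_matrix_trace ℂ b, Matrix.trace]
  refine Finset.sum_congr rfl fun u _ => ?_
  rw [Matrix.diag_apply, LinearMap.toMatrix_apply]
  have hb : b u = MonoidAlgebra.single u 1 := rfl
  have hr : ∀ a, b.repr a = a.coeff := fun _ => rfl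
  rw [hb, hr, LinearMap.comp_apply, LinearMap.mulLeft_apply,
    MonoidAlgebra.coeff_mapDomainLinearMap]
  have e : u = θ (θ.symm u) := (θ.apply_symm_apply u).symm
  have e2 : ∀ x : W →₀ ℂ, Finsupp.mapDomain θ x u = x (θ.symm u) := by
    intro x
    conv_lhs => rw [e]
    exact Finsupp.mapDomain_apply θ.injective _ _
  rw [e2, MonoidAlgebra.coeff_mul_single_apply, mul_one]

theorem block (θ : W ≃* W) (i : S.I) (R : S.E i →ₗ[ℂ] S.E i)
    (hR : Tw S θ i i → (∃ m, 0 < m ∧ R ^ m = 1) ∧
      ∀ w x, R (S.ρ i w x) = S.ρ i (θ w) (R x)) [Decidable (Tw S θ i i)] :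
    ∑ u, (eps S i).coeff (θ.symm u * u⁻¹) =
      if Tw S θ i i then ((‖LinearMap.trace ℂ _ R‖ ^ 2 : ℝ) : ℂ) else 0 := by
  classical
  haveI := S.nt i
  have hd : (Module.finrank ℂ (S.E i) : ℂ) ≠ 0 := by
    exact_mod_cast (Module.finrank_pos (R := ℂ) (M := S.E i)).ne'
  have hw : (Fintype.card W : ℂ) ≠ 0 := by
    exact_mod_cast (Fintype.card_pos (α := W)).ne'
  simp only [eps_coeff, mul_inv_rev, inv_inv, map_mul]
  rw [← Finset.mul_sum]
  split_ifs with hT
  · obtain ⟨⟨m, hm, h1⟩, h2⟩ := hR hT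
    obtain ⟨k, rfl⟩ : ∃ k, m = k + 1 := ⟨m - 1, by omega⟩
    have hRR : R * R ^ k = 1 := by rw [← pow_succ', h1]
    have hRR' : R ^ k * R = 1 := by rw [← pow_succ, h1]
    have e : ∀ u, LinearMap.trace ℂ (S.E i) (S.ρ i u * S.ρ i (θ.symm u)⁻¹) =
        LinearMap.trace ℂ (S.E i) (((S.ρ i u ∘ₗ R ^ k) ∘ₗ S.ρ i u⁻¹) * R) := by
      intro u
      have h3 : R * S.ρ i (θ.symm u)⁻¹ = S.ρ i u⁻¹ * R := by
        ext x
        rw [Module.End.mul_apply, h2, map_inv, MulEquiv.apply_symm_apply, Module.End.mul_apply]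
      have h4 : S.ρ i (θ.symm u)⁻¹ = R ^ k * (S.ρ i u⁻¹ * R) := by
        rw [← h3, ← mul_assoc, hRR', one_mul]
      rw [h4]
      rfl
    rw [Finset.sum_congr rfl fun u _ => e u, ← map_sum, ← Finset.sum_mul]
    have e3 : ∑ u, (S.ρ i u ∘ₗ R ^ k) ∘ₗ S.ρ i u⁻¹ = av (S.ρ i) (S.ρ i) (R ^ k) := rfl
    rw [e3, av_self (S.ρ i) (S.irr i)]
    have e4 : ((Fintype.card W : ℂ) / (Module.finrank ℂ (S.E i) : ℂ) *
        LinearMap.trace ℂ (S.E i) (R ^ k)) • (LinearMap.id : S.E i →ₗ[ℂ] S.E i) * R =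
        ((Fintype.card W : ℂ) / (Module.finrank ℂ (S.E i) : ℂ) *
        LinearMap.trace ℂ (S.E i) (R ^ k)) • R := by
      ext x
      rfl
    rw [e4, map_smul, conj_trace R (R ^ k) (k + 1) hm h1 hRR, smul_eq_mul]
    have e5 : (starRingEnd ℂ) (LinearMap.trace ℂ (S.E i) R) * LinearMap.trace ℂ (S.E i) R =
        ((‖LinearMap.trace ℂ (S.E i) R‖ ^ 2 : ℝ) : ℂ) := by
      rw [mul_comm, Complex.mul_conj, Complex.normSq_eq_norm_sq]
    rw [← e5]
    field_simp
  · have hC : av (S.ρ i) ((S.ρ i).comp (θ.symm : W →* W)) 1 = 0 := by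
      rcases schur_alt (fun w => ((S.ρ i).comp (θ.symm : W →* W)) w) (fun w => S.ρ i w) (by
          intro U hU
          apply S.irr i U
          intro w x hx
          have := hU (θ w) x hx
          rwa [MonoidHom.comp_apply, MonoidHom.coe_coe, MulEquiv.symm_apply_apply] at this)
        (S.irr i) (av (S.ρ i) ((S.ρ i).comp (θ.symm : W →* W)) 1)
        (fun w x => av_int _ _ _ w x) with h | h
      · exact h
      · exfalso
        apply hT
        refine ⟨LinearEquiv.ofBijective _ h, ?_⟩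
        intro w x
        have := av_int (S.ρ i) ((S.ρ i).comp (θ.symm : W →* W)) 1 (θ w) x
        rw [MonoidHom.comp_apply, MonoidHom.coe_coe, MulEquiv.symm_apply_apply] at this
        exact this
    rw [← map_sum]
    have e : ∑ u, S.ρ i u * S.ρ i (θ.symm u)⁻¹ =
        av (S.ρ i) ((S.ρ i).comp (θ.symm : W →* W)) 1 := by
      unfold av
      refine Finset.sum_congr rfl fun u _ => ?_
      ext x
      simp
    rw [e, hC, map_zero, mul_zero]

open Classical in
theorem total (θ : W ≃* W) (R : ∀ i, S.E i →ₗ[ℂ] S.E i) (P : S.I → Prop)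
    (hR : ∀ i, P i → Tw S θ i i → (∃ m, 0 < m ∧ R i ^ m = 1) ∧
      ∀ w x, R i (S.ρ i w x) = S.ρ i (θ w) (R i x)) :
    ∑ u, (∑ i, if P i then eps S i else 0).coeff (θ.symm u * u⁻¹) =
      ∑ i, if P i ∧ Tw S θ i i then ((‖LinearMap.trace ℂ _ (R i)‖ ^ 2 : ℝ) : ℂ) else 0 := by
  simp only [MonoidAlgebra.coeff_sum, Finsupp.finsetSum_apply]
  rw [Finset.sum_comm]
  refine Finset.sum_congr rfl fun i _ => ?_
  by_cases h : P i
  · have := block S θ i (R i) (hR i h)
    simp only [h, if_true, true_and]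
    exact this
  · simp [h]

theorem t_REP : S_REP := by
  classical
  intro W _ _ θ S R P hR hP
  constructor
  · intro U hU T hT
    set ε : MonoidAlgebra ℂ W := ∑ i, if P i then eps S i else 0 with hε
    have hε1 : ∀ j, P j → (S.ρ j).asAlgebraHom ε = 1 := by
      intro j hj
      rw [hε, map_sum, Finset.sum_eq_single j]
      · rw [if_pos hj, eps_eq]
      · intro i _ hij
        split_ifs
        · exact eps_ne S i j hij
        · exact map_zero _
      · intro h
        exact absurd (Finset.mem_univ j) h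
    have hε0 : ∀ j, ¬ P j → (S.ρ j).asAlgebraHom ε = 0 := by
      intro j hj
      rw [hε, map_sum]
      refine Finset.sum_eq_zero fun i _ => ?_
      split_ifs with h
      · refine eps_ne S i j ?_
        rintro rfl
        exact hj h
      · exact map_zero _
    have h1 : ∀ a, ε * a ∈ U := by
      intro a
      rw [hU]
      intro i hi
      rw [map_mul, hε0 i hi, zero_mul]
    have h2 : ∀ a ∈ U, ε * a = a := by
      intro a ha
      rw [← sub_eq_zero]
      apply inj_of_all S
      intro i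
      rw [map_sub, map_mul]
      by_cases h : P i
      · rw [hε1 i h, one_mul, sub_self]
      · rw [hε0 i h, zero_mul, (hU a).1 ha i h, sub_self]
    set G : MonoidAlgebra ℂ W →ₗ[ℂ] MonoidAlgebra ℂ W :=
      (MonoidAlgebra.mapDomainLinearMap ℂ ℂ θ) ∘ₗ LinearMap.mulLeft ℂ ε with hG
    have h3 : ∀ a, G a ∈ U := by
      intro a
      have := (T ⟨ε * a, h1 a⟩).2
      rw [hT] at this
      exact this
    have h4 : T = G.restrict (fun a _ => h3 a) := by
      ext u
      rw [hT, LinearMap.coe_restrict_apply, hG, LinearMap.comp_apply, LinearMap.mulLeft_apply,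
        h2 u u.2]
      rfl
    rw [h4, LinearMap.trace_restrict_eq_of_forall_mem U G h3, hG, trace_G, hε]
    exact total S θ R P hR
  · intro hall
    have h1 := total S θ R P hR
    have h2 : (∑ i, if P i then eps S i else 0) = 1 := by
      rw [← sub_eq_zero]
      apply inj_of_all S
      intro j
      rw [map_sub, map_one, map_sum, Finset.sum_eq_single j]
      · rw [if_pos (hall j), eps_eq, sub_self]
      · intro i _ hij
        split_ifs
        · exact eps_ne S i j hij
        · exact map_zero _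
      · intro h
        exact absurd (Finset.mem_univ j) h
    rw [h2] at h1
    have h3 : ∑ u : W, (1 : MonoidAlgebra ℂ W).coeff (θ.symm u * u⁻¹) =
        ((Nat.card {w : W // θ w = w} : ℕ) : ℂ) := by
      have e : ∀ u : W, (1 : MonoidAlgebra ℂ W).coeff (θ.symm u * u⁻¹) =
          if θ u = u then 1 else 0 := by
        intro u
        have e1 : (1 = θ.symm u * u⁻¹) ↔ (θ u = u) := by
          rw [eq_comm, mul_inv_eq_one, MulEquiv.symm_apply_eq, eq_comm]
        rw [MonoidAlgebra.one_def, MonoidAlgebra.coeff_single, Finsupp.single_apply]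
        simp only [e1]
      rw [Finset.sum_congr rfl fun u _ => e u, Finset.sum_boole, Nat.card_eq_fintype_card,
        Fintype.card_subtype]
    rw [h3] at h1
    have h4 : (((∑ i, if P i ∧ Tw S θ i i then ‖LinearMap.trace ℂ _ (R i)‖ ^ 2 else 0 : ℝ)) : ℂ) =
        (((Nat.card {w : W // θ w = w} : ℕ) : ℝ) : ℂ) := by
      rw [Complex.ofReal_natCast, h1, Complex.ofReal_sum]
      refine Finset.sum_congr rfl fun i _ => ?_
      split_ifs
      · rfl
      · exact Complex.ofReal_zero
    exact Complex.ofReal_injective h4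

end fourier

end Pool.Agent.V5helper68.CM.REP
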