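import Pool.Agent.V5helper32.CM.Stm4
import Pool.Agent.V5helper18.CM.KAP

/-!
# Project CM (helper32): job SIG (helper68)
-/

namespace Pool.Agent.V5helper68.CM.SIG

open Pool.Agent.V5helper32.CM
open Pool.Agent.V5helper18.CM

section

variable {V : Type} [AddCommGroup V] [Module ℂ V]

/-- The third part of the proof of `t_KAP` (helper18), with the explicit class function. -/
lemma kap_cf [FiniteDimensional ℂ V] (W : Subgroup (V ≃ₗ[ℂ] V)) (hW : IsReflGrp W)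
    (k : Submodule ℂ V → ℕ → ℂ) (hk : IsPar W k) (α : Submodule ℂ V → Module.Dual ℂ V)
    (β : Submodule ℂ V → V) (hr : IsRoots W α β) :
    ∀ v ξ w, kap W k α β v ξ w = cf W k w * (ξ (((w : V ≃ₗ[ℂ] V)⁻¹ : V ≃ₗ[ℂ] V) v) - ξ v) := by
  classical
  obtain ⟨hfin, -⟩ := hW
  intro v ξ w
  have hαβ : ∀ H ∈ hyps W, α H (β H) ≠ 0 := by
    intro H hH h0
    obtain ⟨h1, h2, -⟩ := hr H hH
    apply h2
    have h3 : β H ∈ LinearMap.ker (α H) := h0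
    rwa [h1] at h3
  have hterm : ∀ H ∈ hyps W, (∀ v ∈ H, (w : V ≃ₗ[ℂ] V) v = v) →
      ∑ j ∈ Finset.range (eH W H),
        (eH W H : ℂ) * (k H j - k H (j + 1)) * (α H v * ξ (β H) / α H (β H)) * epsH W H j w =
      (α H v * ξ (β H) / α H (β H)) * ∑ j ∈ Finset.range (eH W H),
        (k H j - k H (j + 1)) * LinearMap.det ((w : V ≃ₗ[ℂ] V) : V →ₗ[ℂ] V) ^ j := by
    intro H hH hfix
    rw [Finset.mul_sum]
    refine Finset.sum_congr rfl fun j _ => ?_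
    have he : (eH W H : ℂ) ≠ 0 := Nat.cast_ne_zero.2 (eH_pos W H).ne'
    unfold epsH
    rw [if_pos hfix]
    field_simp
  have hterm0 : ∀ H, ¬ (∀ v ∈ H, (w : V ≃ₗ[ℂ] V) v = v) →
      ∑ j ∈ Finset.range (eH W H),
        (eH W H : ℂ) * (k H j - k H (j + 1)) * (α H v * ξ (β H) / α H (β H)) * epsH W H j w =
      0 := by
    intro H hfix
    refine Finset.sum_eq_zero fun j _ => ?_
    unfold epsH
    rw [if_neg hfix, mul_zero]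
  have huniq : ∀ H ∈ hyps W, (∀ v ∈ H, (w : V ≃ₗ[ℂ] V) v = v) → (w : V ≃ₗ[ℂ] V) ≠ 1 →
      IsRefl (w : V ≃ₗ[ℂ] V) ∧
        LinearMap.ker (((w : V ≃ₗ[ℂ] V) : V →ₗ[ℂ] V) - LinearMap.id) = H := by
    intro H hH hfix h1
    obtain ⟨h2, h3, h4⟩ := hr H hH
    obtain ⟨d, hd⟩ := h4 w w.2 hfix
    rw [← h2] at hfix
    have := kap_refl (α H) (β H) (hαβ H hH) w hfix d hd h1
    rwa [h2] at this
  by_cases hre : IsRefl (w : V ≃ₗ[ℂ] V)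
  · have hH : LinearMap.ker (((w : V ≃ₗ[ℂ] V) : V →ₗ[ℂ] V) - LinearMap.id) ∈ hyps W :=
      ⟨w, w.2, hre, rfl⟩
    have hw1 : (w : V ≃ₗ[ℂ] V) ≠ 1 := by
      intro h1
      unfold Pool.Agent.V5helper32.CM.IsRefl at hre
      rw [h1] at hre
      have h2 : (((1 : V ≃ₗ[ℂ] V) : V →ₗ[ℂ] V) - LinearMap.id) = 0 := by
        ext x
        simp
      rw [h2, LinearMap.range_zero, finrank_bot] at hre
      exact zero_ne_one hre
    have hfix : ∀ v ∈ LinearMap.ker (((w : V ≃ₗ[ℂ] V) : V →ₗ[ℂ] V) - LinearMap.id),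
        (w : V ≃ₗ[ℂ] V) v = v := by
      intro u hu
      rw [LinearMap.mem_ker, LinearMap.sub_apply, sub_eq_zero] at hu
      exact hu
    have hc : cf W k w = -∑ j ∈ Finset.range
        (eH W (LinearMap.ker (((w : V ≃ₗ[ℂ] V) : V →ₗ[ℂ] V) - LinearMap.id))),
        k (LinearMap.ker (((w : V ≃ₗ[ℂ] V) : V →ₗ[ℂ] V) - LinearMap.id)) j *
          LinearMap.det ((w : V ≃ₗ[ℂ] V) : V →ₗ[ℂ] V) ^ j := if_pos hre
    rw [hc]
    revert hH hfix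
    generalize hHH : LinearMap.ker (((w : V ≃ₗ[ℂ] V) : V →ₗ[ℂ] V) - LinearMap.id) = H
    intro hH hfix
    unfold kap
    rw [finsum_eq_single _ H]
    · rw [finsum_eq_single _ hH (fun h h' => absurd rfl h'), hterm H hH hfix]
      obtain ⟨h2, h3, h4⟩ := hr H hH
      obtain ⟨d, hd⟩ := h4 w w.2 hfix
      have hfix' : ∀ v ∈ LinearMap.ker (α H), (w : V ≃ₗ[ℂ] V) v = v := by
        rw [h2]; exact hfix
      have hβ0 : β H ≠ 0 := by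
        intro h
        apply h3
        rw [h]
        exact H.zero_mem
      rw [kap_det (α H) (β H) (hαβ H hH) w hfix' d hd]
      obtain ⟨hd0, hd'⟩ := kap_inv_beta (β H) hβ0 w d hd
      have hfix'' : ∀ v ∈ LinearMap.ker (α H), ((w : V ≃ₗ[ℂ] V)⁻¹ : V ≃ₗ[ℂ] V) v = v := by
        intro u hu
        have := congrArg ((w : V ≃ₗ[ℂ] V)⁻¹ : V ≃ₗ[ℂ] V) (hfix' u hu)
        have h5 : ((w : V ≃ₗ[ℂ] V)⁻¹ : V ≃ₗ[ℂ] V) ((w : V ≃ₗ[ℂ] V) u) = u :=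
          (w : V ≃ₗ[ℂ] V).symm_apply_apply u
        rw [h5] at this
        exact this.symm
      have hde : d ^ eH W H = 1 := by
        have h6 := pow_eH W H w hfix
        have h7 := pow_smul_beta w (β H) d hd (eH W H)
        have h8 : ((w : V ≃ₗ[ℂ] V) ^ eH W H : V ≃ₗ[ℂ] V) = 1 :=
          congrArg (fun g : W => (g : V ≃ₗ[ℂ] V)) h6
        rw [h8] at h7
        have h9 : (1 - d ^ eH W H) • β H = 0 := by
          rw [sub_smul, one_smul, ← h7]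
          exact sub_self _
        rcases smul_eq_zero.1 h9 with h10 | h10
        · exact (sub_eq_zero.1 h10).symm
        · exact absurd h10 hβ0
      have hper : k H (eH W H) = k H 0 := by
        have := hk.2 H hH 0
        rwa [zero_add] at this
      rw [kap_sum (eH W H) (k H) d hd0 hper hde,
        kap_formula (α H) (β H) (hαβ H hH) _ hfix'' _ hd' v, map_add, map_smul, smul_eq_mul]
      ring
    · intro H' hne
      by_cases hH' : H' ∈ hyps W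
      · rw [finsum_eq_single _ hH' (fun h h' => absurd rfl h')]
        apply hterm0
        intro hfix'
        exact hne ((huniq H' hH' hfix' hw1).2.symm.trans hHH)
      · have : IsEmpty (H' ∈ hyps W) := ⟨hH'⟩
        exact finsum_of_isEmpty _
  · have hc : cf W k w = 0 := if_neg hre
    rw [hc, zero_mul]
    unfold kap
    apply finsum_mem_of_eqOn_zero
    intro H hH
    by_cases hfix : ∀ v ∈ H, (w : V ≃ₗ[ℂ] V) v = v
    · have hw1 : (w : V ≃ₗ[ℂ] V) = 1 := by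
        by_contra h1
        exact hre (huniq H hH hfix h1).1
      have h2 := hterm H hH hfix
      have hdet : LinearMap.det ((w : V ≃ₗ[ℂ] V) : V →ₗ[ℂ] V) = 1 := by
        rw [hw1]
        exact LinearMap.det_id
      have hper : k H (eH W H) = k H 0 := by
        have := hk.2 H hH 0
        rwa [zero_add] at this
      have h3 : ∑ j ∈ Finset.range (eH W H),
          (k H j - k H (j + 1)) * LinearMap.det ((w : V ≃ₗ[ℂ] V) : V →ₗ[ℂ] V) ^ j = 0 := by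
        rw [hdet]
        simp only [one_pow, mul_one]
        exact kap_one_sum _ (k H) hper
      rw [h3, mul_zero] at h2
      exact h2
    · exact hterm0 H hfix

/-- The order of the pointwise stabiliser of the image of `H`. -/
lemma tau_eH (W : Subgroup (V ≃ₗ[ℂ] V)) (τ : V ≃ₗ[ℂ] V) (θ : W ≃* W)
    (hθ : ∀ w : W, (θ w : V ≃ₗ[ℂ] V) = τ * w * τ⁻¹) (H : Submodule ℂ V) :
    eH W (H.map (τ : V →ₗ[ℂ] V)) = eH W H := by
  unfold eH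
  refine (Nat.card_congr (Equiv.subtypeEquiv θ.toEquiv ?_)).symm
  intro w
  have key : ∀ v, ((θ.toEquiv w : W) : V ≃ₗ[ℂ] V) v =
      τ ((w : V ≃ₗ[ℂ] V) ((τ⁻¹ : V ≃ₗ[ℂ] V) v)) := by
    intro v
    have : ((θ.toEquiv w : W) : V ≃ₗ[ℂ] V) = τ * w * τ⁻¹ := hθ w
    rw [this]
    rfl
  constructor
  · rintro h _ ⟨v, hv, rfl⟩
    rw [key]
    have h1 : (τ⁻¹ : V ≃ₗ[ℂ] V) ((τ : V →ₗ[ℂ] V) v) = v := τ.symm_apply_apply v
    rw [h1, h v hv]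
    rfl
  · intro h v hv
    have h1 := h _ (Submodule.mem_map_of_mem (f := (τ : V →ₗ[ℂ] V)) hv)
    rw [key] at h1
    have h2 : (τ⁻¹ : V ≃ₗ[ℂ] V) ((τ : V →ₗ[ℂ] V) v) = v := τ.symm_apply_apply v
    rw [h2] at h1
    exact τ.injective h1

lemma tau_cf (W : Subgroup (V ≃ₗ[ℂ] V)) (k : Submodule ℂ V → ℕ → ℂ) (τ : V ≃ₗ[ℂ] V)
    (θ : W ≃* W) (hθ : ∀ w : W, (θ w : V ≃ₗ[ℂ] V) = τ * w * τ⁻¹)
    (hk : ∀ H ∈ hyps W, ∀ j, k (H.map (τ : V →ₗ[ℂ] V)) j = k H j) (w : W) :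
    cf W k (θ w) = cf W k w := by
  unfold cf
  rw [hθ w]
  by_cases hre : IsRefl (w : V ≃ₗ[ℂ] V)
  · rw [if_pos hre, if_pos ((conj_refl _ _).2 hre), conj_ker, conj_det, tau_eH W τ θ hθ]
    refine congrArg _ (Finset.sum_congr rfl fun j _ => ?_)
    rw [hk _ ⟨w, w.2, hre, rfl⟩ j]
  · rw [if_neg hre, if_neg (fun h => hre ((conj_refl _ _).1 h))]

end

section

variable {V : Type} [AddCommGroup V] [Module ℂ V] {W : Subgroup (V ≃ₗ[ℂ] V)}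
  (κ : V → Module.Dual ℂ V → W → ℂ)

lemma X_add (ξ η : Module.Dual ℂ V) : Rca.X κ (ξ + η) = Rca.X κ ξ + Rca.X κ η := by
  unfold Rca.X
  rw [RingQuot.mkAlgHom_rel ℂ (Rel.x_add (κ := κ) ξ η), map_add]

lemma X_smul (c : ℂ) (ξ : Module.Dual ℂ V) : Rca.X κ (c • ξ) = c • Rca.X κ ξ := by
  unfold Rca.X
  rw [RingQuot.mkAlgHom_rel ℂ (Rel.x_smul (κ := κ) c ξ), map_smul]

lemma Y_add (v v' : V) : Rca.Y κ (v + v') = Rca.Y κ v + Rca.Y κ v' := by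
  unfold Rca.Y
  rw [RingQuot.mkAlgHom_rel ℂ (Rel.y_add (κ := κ) v v'), map_add]

lemma Y_smul (c : ℂ) (v : V) : Rca.Y κ (c • v) = c • Rca.Y κ v := by
  unfold Rca.Y
  rw [RingQuot.mkAlgHom_rel ℂ (Rel.y_smul (κ := κ) c v), map_smul]

lemma G_X (w : W) (ξ : Module.Dual ℂ V) : Rca.G κ w * Rca.X κ ξ =
    Rca.X κ (ξ ∘ₗ ((w : V ≃ₗ[ℂ] V)⁻¹ : V ≃ₗ[ℂ] V).toLinearMap) * Rca.G κ w := by
  simp only [Rca.X, Rca.G, MonoidHom.coe_mk, OneHom.coe_mk]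
  rw [← map_mul, RingQuot.mkAlgHom_rel ℂ (Rel.g_x (κ := κ) w ξ), map_mul]

lemma G_Y (w : W) (v : V) : Rca.G κ w * Rca.Y κ v =
    Rca.Y κ ((w : V ≃ₗ[ℂ] V) v) * Rca.G κ w := by
  simp only [Rca.Y, Rca.G, MonoidHom.coe_mk, OneHom.coe_mk]
  rw [← map_mul, RingQuot.mkAlgHom_rel ℂ (Rel.g_y (κ := κ) w v), map_mul]

lemma X_X (ξ η : Module.Dual ℂ V) : Rca.X κ ξ * Rca.X κ η = Rca.X κ η * Rca.X κ ξ := by
  simp only [Rca.X]
  rw [← map_mul, RingQuot.mkAlgHom_rel ℂ (Rel.x_x (κ := κ) ξ η), map_mul]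

lemma Y_Y (v v' : V) : Rca.Y κ v * Rca.Y κ v' = Rca.Y κ v' * Rca.Y κ v := by
  simp only [Rca.Y]
  rw [← map_mul, RingQuot.mkAlgHom_rel ℂ (Rel.y_y (κ := κ) v v'), map_mul]

lemma Y_X [Finite W] (v : V) (ξ : Module.Dual ℂ V) :
    Rca.Y κ v * Rca.X κ ξ - Rca.X κ ξ * Rca.Y κ v = ∑ᶠ w : W, κ v ξ w • Rca.G κ w := by
  have h := RingQuot.mkAlgHom_rel ℂ (Rel.y_x (κ := κ) v ξ)
  rw [map_sub, map_mul, map_mul] at h
  simp only [Rca.X, Rca.Y]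
  rw [h, map_finsum _ (Set.toFinite _)]
  refine finsum_congr fun w => ?_
  rw [map_smul]
  rfl

/-- The images of the generators. -/
noncomputable def gmap (τ : V ≃ₗ[ℂ] V) (θ : W ≃* W) : Gen V W → Rca W κ
  | Gen.x ξ => Rca.X κ (ξ ∘ₗ ((τ⁻¹ : V ≃ₗ[ℂ] V) : V →ₗ[ℂ] V))
  | Gen.y v => Rca.Y κ (τ v)
  | Gen.g w => Rca.G κ (θ w)

lemma gmap_rel [Finite W] (τ : V ≃ₗ[ℂ] V) (θ : W ≃* W)
    (hθ : ∀ w : W, (θ w : V ≃ₗ[ℂ] V) = τ * w * τ⁻¹)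
    (hκ : ∀ v ξ w, κ (τ v) (ξ ∘ₗ ((τ⁻¹ : V ≃ₗ[ℂ] V) : V →ₗ[ℂ] V)) (θ w) = κ v ξ w) :
    ∀ ⦃a b : FreeAlgebra ℂ (Gen V W)⦄, Rel W κ a b →
      FreeAlgebra.lift ℂ (gmap κ τ θ) a = FreeAlgebra.lift ℂ (gmap κ τ θ) b := by
  intro a b h
  cases h with
  | x_add ξ η =>
    simp only [map_add, FreeAlgebra.lift_ι_apply, gmap]
    rw [LinearMap.add_comp, X_add]
  | x_smul c ξ =>
    simp only [map_smul, FreeAlgebra.lift_ι_apply, gmap]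
    rw [LinearMap.smul_comp, X_smul]
  | y_add v v' =>
    simp only [map_add, FreeAlgebra.lift_ι_apply, gmap]
    rw [Y_add]
  | y_smul c v =>
    simp only [map_smul, FreeAlgebra.lift_ι_apply, gmap]
    rw [Y_smul]
  | g_one => simp [gmap]
  | g_mul w w' => simp [gmap]
  | g_x w ξ =>
    simp only [map_mul, FreeAlgebra.lift_ι_apply, gmap]
    rw [G_X]
    congr 2
    ext v
    simp only [LinearMap.comp_apply, LinearEquiv.coe_coe]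
    have h1 : ((θ w : V ≃ₗ[ℂ] V)⁻¹ : V ≃ₗ[ℂ] V) = τ * (w : V ≃ₗ[ℂ] V)⁻¹ * τ⁻¹ := by
      rw [hθ w]
      group
    rw [h1]
    congr 1
    exact τ.symm_apply_apply _
  | g_y w v =>
    simp only [map_mul, FreeAlgebra.lift_ι_apply, gmap]
    rw [G_Y]
    congr 2
    rw [hθ w]
    change τ ((w : V ≃ₗ[ℂ] V) ((τ⁻¹ : V ≃ₗ[ℂ] V) (τ v))) = _
    rw [show (τ⁻¹ : V ≃ₗ[ℂ] V) (τ v) = v from τ.symm_apply_apply v]
  | x_x ξ η =>
    simp only [map_mul, FreeAlgebra.lift_ι_apply, gmap]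
    exact X_X κ _ _
  | y_y v v' =>
    simp only [map_mul, FreeAlgebra.lift_ι_apply, gmap]
    exact Y_Y κ _ _
  | y_x v ξ =>
    rw [map_finsum _ (Set.toFinite _)]
    simp only [map_sub, map_mul, FreeAlgebra.lift_ι_apply, gmap, map_smul]
    rw [Y_X, ← finsum_comp_equiv θ.toEquiv]
    refine finsum_congr fun w => ?_
    change κ (τ v) _ (θ w) • Rca.G κ (θ w) = _
    rw [hκ]

/-- The homomorphism attached to an element which normalises `W`. -/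
noncomputable def hom [Finite W] (τ : V ≃ₗ[ℂ] V) (θ : W ≃* W)
    (hθ : ∀ w : W, (θ w : V ≃ₗ[ℂ] V) = τ * w * τ⁻¹)
    (hκ : ∀ v ξ w, κ (τ v) (ξ ∘ₗ ((τ⁻¹ : V ≃ₗ[ℂ] V) : V →ₗ[ℂ] V)) (θ w) = κ v ξ w) :
    Rca W κ →ₐ[ℂ] Rca W κ :=
  RingQuot.liftAlgHom ℂ ⟨FreeAlgebra.lift ℂ (gmap κ τ θ), gmap_rel κ τ θ hθ hκ⟩

lemma hom_X [Finite W] (τ : V ≃ₗ[ℂ] V) (θ : W ≃* W)
    (hθ : ∀ w : W, (θ w : V ≃ₗ[ℂ] V) = τ * w * τ⁻¹)
    (hκ : ∀ v ξ w, κ (τ v) (ξ ∘ₗ ((τ⁻¹ : V ≃ₗ[ℂ] V) : V →ₗ[ℂ] V)) (θ w) = κ v ξ w)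
    (ξ : Module.Dual ℂ V) :
    hom κ τ θ hθ hκ (Rca.X κ ξ) = Rca.X κ (ξ ∘ₗ ((τ⁻¹ : V ≃ₗ[ℂ] V) : V →ₗ[ℂ] V)) := by
  unfold hom
  rw [show Rca.X κ ξ = RingQuot.mkAlgHom ℂ (Rel W κ) (FreeAlgebra.ι ℂ (Gen.x ξ)) from rfl,
    RingQuot.liftAlgHom_mkAlgHom_apply, FreeAlgebra.lift_ι_apply]
  rfl

lemma hom_Y [Finite W] (τ : V ≃ₗ[ℂ] V) (θ : W ≃* W)
    (hθ : ∀ w : W, (θ w : V ≃ₗ[ℂ] V) = τ * w * τ⁻¹)
    (hκ : ∀ v ξ w, κ (τ v) (ξ ∘ₗ ((τ⁻¹ : V ≃ₗ[ℂ] V) : V →ₗ[ℂ] V)) (θ w) = κ v ξ w)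
    (v : V) :
    hom κ τ θ hθ hκ (Rca.Y κ v) = Rca.Y κ (τ v) := by
  unfold hom
  rw [show Rca.Y κ v = RingQuot.mkAlgHom ℂ (Rel W κ) (FreeAlgebra.ι ℂ (Gen.y v)) from rfl,
    RingQuot.liftAlgHom_mkAlgHom_apply, FreeAlgebra.lift_ι_apply]
  rfl

lemma hom_G [Finite W] (τ : V ≃ₗ[ℂ] V) (θ : W ≃* W)
    (hθ : ∀ w : W, (θ w : V ≃ₗ[ℂ] V) = τ * w * τ⁻¹)
    (hκ : ∀ v ξ w, κ (τ v) (ξ ∘ₗ ((τ⁻¹ : V ≃ₗ[ℂ] V) : V →ₗ[ℂ] V)) (θ w) = κ v ξ w)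
    (w : W) :
    hom κ τ θ hθ hκ (Rca.G κ w) = Rca.G κ (θ w) := by
  unfold hom
  rw [show Rca.G κ w = RingQuot.mkAlgHom ℂ (Rel W κ) (FreeAlgebra.ι ℂ (Gen.g w)) from rfl,
    RingQuot.liftAlgHom_mkAlgHom_apply, FreeAlgebra.lift_ι_apply]
  rfl

/-- Two homomorphisms which agree on the generators are equal. -/
lemma hom_ext' {B : Type} [Ring B] [Algebra ℂ B] (f g : Rca W κ →ₐ[ℂ] B)
    (hX : ∀ ξ, f (Rca.X κ ξ) = g (Rca.X κ ξ)) (hY : ∀ v, f (Rca.Y κ v) = g (Rca.Y κ v))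
    (hG : ∀ w, f (Rca.G κ w) = g (Rca.G κ w)) : f = g := by
  apply RingQuot.ringQuot_ext'
  apply FreeAlgebra.hom_ext
  funext a
  cases a with
  | x ξ => exact hX ξ
  | y v => exact hY v
  | g w => exact hG w

end

theorem t_SIG : S_SIG := by
  intro V _ _ _ W hW k hk α β hr τ m hm hτ hn hkτ
  have hfin : Finite W := hW.1
  -- the automorphism of `W`
  have hn' : ∀ w ∈ W, τ⁻¹ * w * τ ∈ W := by
    intro w hw
    have hpow : ∀ (j : ℕ), τ ^ j * w * (τ ^ j)⁻¹ ∈ W := by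
      intro j
      induction j with
      | zero => simpa using hw
      | succ j ih =>
        have h1 := hn _ ih
        have h2 : τ * (τ ^ j * w * (τ ^ j)⁻¹) * τ⁻¹ = τ ^ (j + 1) * w * (τ ^ (j + 1))⁻¹ := by
          rw [pow_succ' τ j]
          group
        rwa [h2] at h1
    obtain ⟨m', rfl⟩ : ∃ m', m = m' + 1 := ⟨m - 1, by omega⟩
    have h1 : τ ^ m' = τ⁻¹ := by
      rw [eq_inv_iff_mul_eq_one, ← pow_succ, hτ]
    have h2 := hpow m'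
    rwa [h1, inv_inv] at h2
  let θ : W ≃* W :=
    { toFun := fun w => ⟨τ * w * τ⁻¹, hn _ w.2⟩
      invFun := fun w => ⟨τ⁻¹ * w * τ, hn' _ w.2⟩
      left_inv := by
        intro w
        apply Subtype.ext
        change τ⁻¹ * (τ * (w : V ≃ₗ[ℂ] V) * τ⁻¹) * τ = w
        group
      right_inv := by
        intro w
        apply Subtype.ext
        change τ * (τ⁻¹ * (w : V ≃ₗ[ℂ] V) * τ) * τ⁻¹ = w
        group
      map_mul' := by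
        intro w w'
        apply Subtype.ext
        change τ * ((w : V ≃ₗ[ℂ] V) * w') * τ⁻¹ = τ * w * τ⁻¹ * (τ * w' * τ⁻¹)
        group }
  have hθ : ∀ w : W, (θ w : V ≃ₗ[ℂ] V) = τ * w * τ⁻¹ := fun w => rfl
  have hθ' : ∀ w : W, (θ.symm w : V ≃ₗ[ℂ] V) = τ⁻¹ * w * (τ⁻¹)⁻¹ := by
    intro w
    rw [inv_inv]
    rfl
  have hκf := kap_cf W hW k hk α β hr
  have hκ : ∀ v ξ w, kap W k α β (τ v) (ξ ∘ₗ ((τ⁻¹ : V ≃ₗ[ℂ] V) : V →ₗ[ℂ] V)) (θ w) =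
      kap W k α β v ξ w := by
    intro v ξ w
    rw [hκf, hκf, tau_cf W k τ θ hθ hkτ]
    congr 2
    · simp only [LinearMap.comp_apply, LinearEquiv.coe_coe]
      have h1 : ((θ w : V ≃ₗ[ℂ] V)⁻¹ : V ≃ₗ[ℂ] V) = τ * (w : V ≃ₗ[ℂ] V)⁻¹ * τ⁻¹ := by
        rw [hθ w]
        group
      rw [h1]
      congr 1
      change (τ⁻¹ : V ≃ₗ[ℂ] V) (τ (((w : V ≃ₗ[ℂ] V)⁻¹ : V ≃ₗ[ℂ] V) ((τ⁻¹ : V ≃ₗ[ℂ] V) (τ v)))) = _
      rw [show ∀ u, (τ⁻¹ : V ≃ₗ[ℂ] V) (τ u) = u from τ.symm_apply_apply,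
        show ∀ u, (τ⁻¹ : V ≃ₗ[ℂ] V) (τ u) = u from τ.symm_apply_apply]
    · simp only [LinearMap.comp_apply, LinearEquiv.coe_coe]
      rw [show ∀ u, (τ⁻¹ : V ≃ₗ[ℂ] V) (τ u) = u from τ.symm_apply_apply]
  have hκ' : ∀ v ξ w, kap W k α β ((τ⁻¹ : V ≃ₗ[ℂ] V) v)
      (ξ ∘ₗ (((τ⁻¹)⁻¹ : V ≃ₗ[ℂ] V) : V →ₗ[ℂ] V)) (θ.symm w) = kap W k α β v ξ w := by
    intro v ξ w
    rw [← hκ]
    rw [show τ ((τ⁻¹ : V ≃ₗ[ℂ] V) v) = v from τ.apply_symm_apply v, MulEquiv.apply_symm_apply]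
    congr 1
    ext u
    simp only [LinearMap.comp_apply, LinearEquiv.coe_coe, inv_inv]
    rw [show τ ((τ⁻¹ : V ≃ₗ[ℂ] V) u) = u from τ.apply_symm_apply u]
  refine ⟨AlgEquiv.ofAlgHom (hom _ τ θ hθ hκ) (hom _ τ⁻¹ θ.symm hθ' hκ') ?_ ?_, ?_, ?_, ?_⟩
  · apply hom_ext'
    · intro ξ
      simp only [AlgHom.comp_apply, hom_X, AlgHom.id_apply]
      congr 1
      ext u
      simp only [LinearMap.comp_apply, LinearEquiv.coe_coe, inv_inv]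
      rw [show τ ((τ⁻¹ : V ≃ₗ[ℂ] V) u) = u from τ.apply_symm_apply u]
    · intro v
      simp only [AlgHom.comp_apply, hom_Y, AlgHom.id_apply]
      rw [show τ ((τ⁻¹ : V ≃ₗ[ℂ] V) v) = v from τ.apply_symm_apply v]
    · intro w
      simp only [AlgHom.comp_apply, hom_G, AlgHom.id_apply, MulEquiv.apply_symm_apply]
  · apply hom_ext'
    · intro ξ
      simp only [AlgHom.comp_apply, hom_X, AlgHom.id_apply]
      congr 1
      ext u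
      simp only [LinearMap.comp_apply, LinearEquiv.coe_coe, inv_inv]
      rw [show (τ⁻¹ : V ≃ₗ[ℂ] V) (τ u) = u from τ.symm_apply_apply u]
    · intro v
      simp only [AlgHom.comp_apply, hom_Y, AlgHom.id_apply]
      rw [show (τ⁻¹ : V ≃ₗ[ℂ] V) (τ v) = v from τ.symm_apply_apply v]
    · intro w
      simp only [AlgHom.comp_apply, hom_G, AlgHom.id_apply, MulEquiv.symm_apply_apply]
  · intro ξ
    exact hom_X _ τ θ hθ hκ ξ
  · intro v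
    exact hom_Y _ τ θ hθ hκ v
  · intro w w' hw
    have h1 : w' = θ w := Subtype.ext (hw.trans (hθ w).symm)
    rw [h1]
    exact hom_G _ τ θ hθ hκ w

end Pool.Agent.V5helper68.CM.SIG
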